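import Mathlib
import Pool.Agent.W623.Pris.Basis
import Pool.Agent.W623.Pris.Final

/-!
# A basis presentation whose complex is not prismatically collapsible

`⟨a, b, c | a b a b b c, b, b c⁻¹ b⁻¹ a b b c⟩`: the relators are reduced words and form a basis of
the free group of rank three, and the standard complex is not prismatically collapsible.
-/

set_option autoImplicit false

namespace Pool.Agent.Results.MP_c23c79_gt.BasisNotPrismatic

open Pool.Agent.W623.Pris

theorem result : ∃ R : Fin 3 → Word 3,
    R 0 = [(0, true), (1, true), (0, true), (1, true), (1, true), (2, true)] ∧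
    R 1 = [(1, true)] ∧
    R 2 = [(1, true), (2, false), (1, false), (0, true), (1, true), (1, true), (2, true)] ∧
    (∀ j, FreeGroup.IsReduced (R j)) ∧
    (∃ e : FreeGroup (Fin 3) ≃* FreeGroup (Fin 3), ∀ j, e (FreeGroup.of j) = FreeGroup.mk (R j)) ∧
    ¬ PrismaticallyCollapsible R :=
  ⟨exR, rfl, rfl, rfl, ex_reduced, ex_basis, ex_not_prismatically_collapsible⟩

end Pool.Agent.Results.MP_c23c79_gt.BasisNotPrismatic
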